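import Pool.Agent.helper54.UG.Spec3

/-!
Row ug:SH1: an element of `H` which fixes an isotropic vector `v` but not the hyperplane orthogonal to `v`.
-/

set_option autoImplicit false

namespace Pool.Agent.UG

open Matrix Pool.Agent.H48SL

theorem SH1_pow_fix {n : ℕ} (T : SLZ n) (u : Fin n → ℚ) (h : qg T *ᵥ u = u) (k : ℕ) :
    qg (T ^ k) *ᵥ u = u := by
  induction k with
  | zero => rw [pow_zero, qg_one, Matrix.one_mulVec]
  | succ k ih => rw [pow_succ, qg_mul, ← Matrix.mulVec_mulVec, h, ih]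

theorem SH1_pow_form {n : ℕ} (S : MQ n) (T : SLZ n) (h : (qg T)ᵀ * S * qg T = S) (k : ℕ) :
    (qg (T ^ k))ᵀ * S * qg (T ^ k) = S := by
  induction k with
  | zero => rw [pow_zero, qg_one, Matrix.transpose_one, Matrix.one_mul, Matrix.mul_one]
  | succ k ih =>
    rw [pow_succ, qg_mul, Matrix.transpose_mul]
    calc (qg T)ᵀ * (qg (T ^ k))ᵀ * S * (qg (T ^ k) * qg T)
        = (qg T)ᵀ * ((qg (T ^ k))ᵀ * S * qg (T ^ k)) * qg T := by simp only [Matrix.mul_assoc]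
      _ = S := by rw [ih, h]

theorem SH1_inj {n : ℕ} (S : MQ n) (hdet : S.det ≠ 0) {a b : Fin n → ℚ} (h : S *ᵥ a = S *ᵥ b) : a = b := by
  have hu : IsUnit S.det := isUnit_iff_ne_zero.2 hdet
  have h2 : S⁻¹ *ᵥ (S *ᵥ a) = S⁻¹ *ᵥ (S *ᵥ b) := by rw [h]
  rwa [Matrix.mulVec_mulVec, Matrix.mulVec_mulVec, Matrix.nonsing_inv_mul S hu, Matrix.one_mulVec,
    Matrix.one_mulVec] at h2

theorem SH1 (hSUI : SUI_stmt) (hPLN : PLN_stmt) (hPEL : PEL_stmt) : SH1_stmt := by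
  intro n hn S H hS hdet hO hZ hiso
  obtain ⟨g, hg, v, hv0, hvv, hne, x₀, y₀, hux, huy, hx0, hy0⟩ := hSUI n hn S H hS hdet hZ hiso
  have hu : IsUnit S.det := isUnit_iff_ne_zero.2 hdet
  obtain ⟨u, hu_def⟩ : ∃ u, u = qg g⁻¹ *ᵥ v := ⟨_, rfl⟩
  rw [← hu_def] at hne hux huy
  have hgu : qg g *ᵥ u = v := by
    rw [hu_def, Matrix.mulVec_mulVec, qg_mul_inv, Matrix.one_mulVec]
  obtain ⟨w, hw_def⟩ : ∃ w, w = S⁻¹ *ᵥ ((S *ᵥ v) ᵥ* qg g) := ⟨_, rfl⟩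
  have hSw : S *ᵥ w = (S *ᵥ v) ᵥ* qg g := by
    rw [hw_def, Matrix.mulVec_mulVec, Matrix.mul_nonsing_inv S hu, Matrix.one_mulVec]
  have huw : bf S u w = 0 := by
    unfold bf
    rw [hSw, dotProduct_comm, ← Matrix.dotProduct_mulVec, hgu, dotProduct_comm]
    exact hvv
  have hw0 : w ≠ 0 := by
    intro h0
    rw [h0, Matrix.mulVec_zero] at hSw
    apply hv0
    apply SH1_inj S hdet
    rw [Matrix.mulVec_zero]
    have h2 : ((S *ᵥ v) ᵥ* qg g) ᵥ* qg g⁻¹ = 0 := by rw [← hSw, Matrix.zero_vecMul]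
    rwa [Matrix.vecMul_vecMul, qg_mul_inv, Matrix.vecMul_one] at h2
  obtain ⟨x, y, hux', huy', hxy, hxx, hyy, hsq, hw⟩ :=
    hPLN n hn S hS hdet u w x₀ y₀ hne huw hw0 hux huy hx0 hy0
  obtain ⟨T, hTS, hTf, hTn⟩ := hPEL n S hS hdet x y hxy hxx hyy hsq
  obtain ⟨k, hk1, hTk⟩ := hO T hTS
  have hTu : qg (T ^ k) *ᵥ u = u := SH1_pow_fix T u (hTf u hux' huy') k
  have hTS' := SH1_pow_form S T hTS k
  refine ⟨v, g * T ^ k * g⁻¹, hv0, hvv, H.mul_mem (H.mul_mem hg hTk) (H.inv_mem hg), ?_, ?_⟩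
  · rw [qg_mul, qg_mul, ← Matrix.mulVec_mulVec, ← Matrix.mulVec_mulVec, ← hu_def, hTu, hgu]
  · intro c hc
    have h1 : (S *ᵥ w) ᵥ* qg (T ^ k) = c • (S *ᵥ w) := by
      have h2 : ((S *ᵥ v) ᵥ* qg (g * T ^ k * g⁻¹)) ᵥ* qg g = (c • (S *ᵥ v)) ᵥ* qg g := by rw [hc]
      rw [qg_mul, qg_mul, ← Matrix.vecMul_vecMul, ← Matrix.vecMul_vecMul, ← hSw, Matrix.vecMul_vecMul,
        qg_inv_mul, Matrix.vecMul_one, Matrix.smul_vecMul, ← hSw] at h2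
      exact h2
    have h3 : S *ᵥ w = S *ᵥ (c • (qg (T ^ k) *ᵥ w)) := by
      have h4 : (S *ᵥ (qg (T ^ k) *ᵥ w)) = (S * qg (T ^ k)) *ᵥ w := by rw [Matrix.mulVec_mulVec]
      have h5 : (S * qg (T ^ k))ᵀ = (qg (T ^ k))ᵀ * S := by rw [Matrix.transpose_mul, hS]
      -- `(S w) M = c S w`, so `S w = c S M w` after applying the inverse
      have h6 : (qg (T ^ k))ᵀ *ᵥ (S *ᵥ w) = c • (S *ᵥ w) := by
        rw [Matrix.mulVec_transpose, h1]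
      have h7 : (qg (T ^ k))ᵀ * S = S * qg (T ^ k)⁻¹ := by
        calc (qg (T ^ k))ᵀ * S = (qg (T ^ k))ᵀ * S * (qg (T ^ k) * qg (T ^ k)⁻¹) := by
              rw [qg_mul_inv, Matrix.mul_one]
          _ = ((qg (T ^ k))ᵀ * S * qg (T ^ k)) * qg (T ^ k)⁻¹ := by simp only [Matrix.mul_assoc]
          _ = S * qg (T ^ k)⁻¹ := by rw [hTS']
      rw [Matrix.mulVec_mulVec, h7, ← Matrix.mulVec_mulVec, ← Matrix.mulVec_smul] at h6
      have h8 := SH1_inj S hdet h6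
      have h9 : qg (T ^ k) *ᵥ (qg (T ^ k)⁻¹ *ᵥ w) = qg (T ^ k) *ᵥ (c • w) := by rw [h8]
      rw [Matrix.mulVec_mulVec, qg_mul_inv, Matrix.one_mulVec, Matrix.mulVec_smul] at h9
      rw [← h9]
    have h10 := SH1_inj S hdet h3
    have hc0 : c ≠ 0 := by
      rintro rfl
      rw [zero_smul] at h10
      exact hw0 h10
    refine hTn k hk1 w hw c⁻¹ ?_
    conv_rhs => rw [h10]
    rw [smul_smul, inv_mul_cancel₀ hc0, one_smul]

end Pool.Agent.UG
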